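import Pool.Agent.TBP.StmtsA

/-!
Squad TBP, row UNI: the union bound.
-/

set_option autoImplicit false

namespace Pool.Agent.TBP.H81

open Finset
open Pool.Agent.Common_Sieve Pool.Agent.Helper46_MNO

lemma uni_rho_pos : 0 < rho := by
  unfold rho
  exact one_div_pos.mpr (Real.log_pos (by norm_num))

lemma uni_rho_le : rho ≤ 2 := by
  unfold rho
  rw [div_le_iff₀ (Real.log_pos (by norm_num))]
  have := Real.log_two_gt_d9
  linarith

theorem uni (hMOM : MomStmt) (hCHO : ChoStmt) (hSER : SerStmt) (hSTA : StaStmt) : UniStmt := by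
  intro B hB
  obtain ⟨e, he⟩ : ∃ e : ℝ, e = Real.exp 1 := ⟨_, rfl⟩
  have he1 : 2 < e := by
    have := Real.exp_one_gt_d9
    rw [he]
    linarith
  have he2 : e < 3 := by
    have := Real.exp_one_lt_d9
    rw [he]
    linarith
  obtain ⟨L, hLd⟩ : ∃ L : ℝ, L = Real.log 2 := ⟨_, rfl⟩
  have hL : 0 < L := by rw [hLd]; exact Real.log_pos (by norm_num)
  have hρL : rho = 1 / L := by rw [hLd]; rfl
  rw [← he, ← hLd] at hB
  obtain ⟨η, hη⟩ : ∃ η : ℝ, η = B / L - e := ⟨_, rfl⟩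
  have hη0 : 0 < η := by
    rw [hη, sub_pos, lt_div_iff₀ hL]
    exact hB
  obtain ⟨θ, hθ⟩ : ∃ θ : ℝ, θ = 1 / (1 + η / (2 * (e - 1))) := ⟨_, rfl⟩
  have hq : 0 < η / (2 * (e - 1)) := div_pos hη0 (by linarith)
  have hθ0 : 0 < θ := by rw [hθ]; exact one_div_pos.mpr (by linarith)
  have hθ1 : θ < 1 := by
    rw [hθ, div_lt_one (by linarith)]
    linarith
  have hθi : 1 / θ = 1 + η / (2 * (e - 1)) := by rw [hθ, one_div_one_div]
  have hexp : (1 / θ) * (e - 1) - B * rho = -(1 + η / 2) := by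
    rw [hθi, hρL]
    have h1 : (1 + η / (2 * (e - 1))) * (e - 1) = (e - 1) + η / 2 := by
      have h2 : e - 1 ≠ 0 := by linarith
      field_simp
    have h3 : B * (1 / L) = η + e := by
      rw [hη, mul_one_div]
      ring
    rw [h1, h3]
    ring
  obtain ⟨a, J0, C, ha, hC, hM⟩ := hMOM θ hθ0 hθ1
  obtain ⟨C', hC', hS⟩ := hSER (η / 2) (by positivity)
  obtain ⟨D, hD⟩ : ∃ D : ℝ, D = 16 * C * C' + 1 := ⟨_, rfl⟩
  have hD1 : 1 ≤ D := by
    rw [hD]
    have : 0 < 16 * C * C' := by positivity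
    linarith
  have hD0 : 0 < D := by linarith
  have hF1 : 1 ≤ D ^ L := Real.one_le_rpow hD1 hL.le
  have hF0 : 0 < D ^ L := by linarith
  refine ⟨a, J0, D ^ L, ha, hF1, ?_⟩
  intro J σ hJ hσ
  obtain ⟨h1, h2, hpos, hcard, hmom⟩ := hM J σ hJ hσ
  refine ⟨h1, h2, ?_⟩
  by_contra hcon
  push Not at hcon
  obtain ⟨TV, hTV⟩ : ∃ TV : ℝ, TV = (TT a J : ℝ) * VV θ J := ⟨_, rfl⟩
  rw [← hTV] at hpos hcard hmom
  rw [← he] at hmom
  -- the bound for one `k`
  have hkey : ∀ k ∈ Icc 1 (lw J 0), ((k.divisors.card : ℝ) / (D ^ L * (k : ℝ) ^ B)) ^ rho *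
      ∑ t ∈ SS θ J σ (TT a J), tk rho (lf J σ k t / Nat.gcd (WW J) k) ≤
      (4 * C / D * TV) * ((k.divisors.card : ℝ) ^ 6 * (k : ℝ) ^ (-(1 + η / 2))) := by
    intro k hk
    rw [mem_Icc] at hk
    have hk0 : (0 : ℝ) < k := by exact_mod_cast hk.1
    have hτ1 : (1 : ℝ) ≤ (k.divisors.card : ℝ) := by
      have : 0 < k.divisors.card := Finset.card_pos.mpr ⟨1, Nat.one_mem_divisors.mpr (by omega)⟩
      exact_mod_cast this
    obtain ⟨τ, hτ⟩ : ∃ τ : ℝ, τ = (k.divisors.card : ℝ) := ⟨_, rfl⟩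
    rw [← hτ] at hτ1
    have hτ0 : 0 < τ := by linarith
    obtain ⟨j, hj1, hj2, hj3⟩ := hCHO θ J k hθ0 hk.1
    have hm := hmom k j hk.1 hk.2 hj1 hj2
    rw [← hτ] at hm ⊢
    have e1 : ((2 : ℝ) ^ j) ^ (e - 1) ≤ 4 * (k : ℝ) ^ ((1 / θ) * (e - 1)) := by
      calc ((2 : ℝ) ^ j) ^ (e - 1) ≤ (2 * (k : ℝ) ^ (1 / θ)) ^ (e - 1) :=
            Real.rpow_le_rpow (by positivity) hj3 (by linarith)
        _ = 2 ^ (e - 1) * (k : ℝ) ^ ((1 / θ) * (e - 1)) := by
            rw [Real.mul_rpow (by norm_num) (by positivity), ← Real.rpow_mul hk0.le]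
        _ ≤ 4 * (k : ℝ) ^ ((1 / θ) * (e - 1)) := by
            apply mul_le_mul_of_nonneg_right _ (by positivity)
            calc (2 : ℝ) ^ (e - 1) ≤ 2 ^ (2 : ℝ) :=
                  Real.rpow_le_rpow_of_exponent_le (by norm_num) (by linarith)
              _ = 4 := by norm_num
    have e2 : (τ / (D ^ L * (k : ℝ) ^ B)) ^ rho ≤ τ ^ 2 / (D * (k : ℝ) ^ (B * rho)) := by
      rw [Real.div_rpow hτ0.le (by positivity), Real.mul_rpow hF0.le (by positivity),
        ← Real.rpow_mul hD0.le, ← Real.rpow_mul hk0.le]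
      have h3 : L * rho = 1 := by
        rw [hρL]
        field_simp
      rw [h3, Real.rpow_one]
      apply div_le_div_of_nonneg_right _ (by positivity)
      calc τ ^ rho ≤ τ ^ (2 : ℝ) := Real.rpow_le_rpow_of_exponent_le hτ1 uni_rho_le
        _ = τ ^ 2 := by norm_num
    have e3 : ∑ t ∈ SS θ J σ (TT a J), tk rho (lf J σ k t / Nat.gcd (WW J) k) ≤
        C * TV * (4 * (k : ℝ) ^ ((1 / θ) * (e - 1))) * τ ^ 4 := by
      refine le_trans hm ?_
      apply mul_le_mul_of_nonneg_right _ (by positivity)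
      exact mul_le_mul_of_nonneg_left e1 (by positivity)
    have e4 : (k : ℝ) ^ (-(1 + η / 2)) =
        (k : ℝ) ^ ((1 / θ) * (e - 1)) / (k : ℝ) ^ (B * rho) := by
      rw [← hexp, Real.rpow_sub hk0]
    calc (τ / (D ^ L * (k : ℝ) ^ B)) ^ rho *
        ∑ t ∈ SS θ J σ (TT a J), tk rho (lf J σ k t / Nat.gcd (WW J) k) ≤
        (τ ^ 2 / (D * (k : ℝ) ^ (B * rho))) *
          (C * TV * (4 * (k : ℝ) ^ ((1 / θ) * (e - 1))) * τ ^ 4) := by
          apply mul_le_mul e2 e3 _ (by positivity)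
          exact Finset.sum_nonneg fun t _ => tk_nonneg _ _
      _ = (4 * C / D * TV) * (τ ^ 6 * (k : ℝ) ^ (-(1 + η / 2))) := by
          rw [e4]
          have h5 : (k : ℝ) ^ (B * rho) ≠ 0 := (Real.rpow_pos_of_pos hk0 _).ne'
          field_simp
  have hcount : ((SS θ J σ (TT a J)).card : ℝ) ≤ ∑ k ∈ Icc 1 (lw J 0),
      ((k.divisors.card : ℝ) / (D ^ L * (k : ℝ) ^ B)) ^ rho *
      ∑ t ∈ SS θ J σ (TT a J), tk rho (lf J σ k t / Nat.gcd (WW J) k) := by
    simp_rw [Finset.mul_sum]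
    rw [Finset.sum_comm, Finset.cast_card]
    apply Finset.sum_le_sum
    intro t ht
    have ht1 : t ∈ Icc 1 (TT a J) := by
      unfold SS at ht
      exact (mem_filter.mp ht).1
    rw [mem_Icc] at ht1
    obtain ⟨k, hk, hlt⟩ := hcon t ht1.1 ht1.2
    have hk' := mem_Icc.mp hk
    have hk0 : (0 : ℝ) < k := by exact_mod_cast hk'.1
    have hst := (hSTA J k t σ hk'.1).2
    have hst' : ((lf J σ k t).divisors.card : ℝ) ≤
        (k.divisors.card : ℝ) * ((lf J σ k t / Nat.gcd (WW J) k).divisors.card : ℝ) := by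
      exact_mod_cast hst
    have hden : 0 < D ^ L * (k : ℝ) ^ B := by positivity
    have e1 : 1 ≤ (k.divisors.card : ℝ) / (D ^ L * (k : ℝ) ^ B) *
        ((lf J σ k t / Nat.gcd (WW J) k).divisors.card : ℝ) := by
      rw [div_mul_eq_mul_div, le_div_iff₀ hden, one_mul]
      linarith
    have e2 : 1 ≤ ((k.divisors.card : ℝ) / (D ^ L * (k : ℝ) ^ B)) ^ rho *
        tk rho (lf J σ k t / Nat.gcd (WW J) k) := by
      unfold tk
      rw [← Real.mul_rpow (by positivity) (by positivity)]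
      exact Real.one_le_rpow e1 uni_rho_pos.le
    refine le_trans e2 ?_
    exact Finset.single_le_sum
      (f := fun k : ℕ => ((k.divisors.card : ℝ) / (D ^ L * (k : ℝ) ^ B)) ^ rho *
        tk rho (lf J σ k t / Nat.gcd (WW J) k))
      (fun k _ => mul_nonneg (Real.rpow_nonneg (by positivity) _) (tk_nonneg _ _)) hk
  have hfin : TV / 4 ≤ (4 * C / D * TV) * C' := by
    calc TV / 4 ≤ _ := hcard
      _ ≤ _ := hcount
      _ ≤ ∑ k ∈ Icc 1 (lw J 0),
          (4 * C / D * TV) * ((k.divisors.card : ℝ) ^ 6 * (k : ℝ) ^ (-(1 + η / 2))) :=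
          Finset.sum_le_sum hkey
      _ = (4 * C / D * TV) * ∑ k ∈ Icc 1 (lw J 0),
          (k.divisors.card : ℝ) ^ 6 * (k : ℝ) ^ (-(1 + η / 2)) := by rw [Finset.mul_sum]
      _ ≤ (4 * C / D * TV) * C' :=
          mul_le_mul_of_nonneg_left (hS _) (by positivity)
  have h3 : (4 * C / D * TV) * C' = TV * (4 * C * C') / D := by
    field_simp
  rw [h3, le_div_iff₀ hD0, hD] at hfin
  nlinarith

end Pool.Agent.TBP.H81
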